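import Mathlib
import Pool.Prelude.Def_F_aebf185a

/-!
# Pairs with equal sum of divisors: squarefree pairs, coprime pairs and all pairs
-/

set_option autoImplicit false

namespace Pool.Agent.Q5.SQ

open Finset Filter
open scoped ArithmeticFunction.sigma
open Nb4cc4d7a

/-- The number of pairs `1 ≤ a < b < x` with `σ(a) = σ(b)`. -/
def hAll (x : ℕ) : ℕ :=
  ((Finset.Ico 1 x ×ˢ Finset.Ico 1 x).filter fun (a, b) ↦ a < b ∧ σ 1 a = σ 1 b).card

/-- The number of pairs `1 ≤ a < b < x` with `gcd(a, b) = 1` and `σ(a) = σ(b)`. -/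
def hCoprime (x : ℕ) : ℕ :=
  ((Finset.Ico 1 x ×ˢ Finset.Ico 1 x).filter fun (a, b) ↦
    a < b ∧ Nat.Coprime a b ∧ σ 1 a = σ 1 b).card

/-- The number of pairs `1 ≤ a < b < x` of coprime squarefree numbers with `σ(a) = σ(b)`. -/
def hBoth (x : ℕ) : ℕ :=
  ((Finset.Ico 1 x ×ˢ Finset.Ico 1 x).filter fun (a, b) ↦
    a < b ∧ Nat.Coprime a b ∧ Squarefree a ∧ Squarefree b ∧ σ 1 a = σ 1 b).card

/-- The number of squarefree numbers `1 ≤ a < x` with `σ(a) = m`. -/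
def pop (x m : ℕ) : ℕ :=
  ((Finset.Ico 1 x).filter fun a ↦ Squarefree a ∧ σ 1 a = m).card

/-- `F(x) > x ^ (2 - o(1))`. -/
def Full (F : ℕ → ℕ) : Prop :=
  ∀ ε : ℝ, 0 < ε → ∀ᶠ x : ℕ in atTop, (x : ℝ) ^ (2 - ε) < (F x : ℝ)

/-- Some value of `σ` is taken by more than `x ^ (1 - ε)` squarefree numbers below `x`, for every
`ε > 0` and all large `x`. -/
def Popular : Prop :=
  ∀ ε : ℝ, 0 < ε → ∀ᶠ x : ℕ in atTop, ∃ m : ℕ, (x : ℝ) ^ (1 - ε) < (pop x m : ℝ)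

/-! ## The squarefull part -/

lemma decomp (n : ℕ) (hn : 0 < n) : ∃ s t b : ℕ, n = s * t ∧ Squarefree s ∧ Nat.Coprime s t ∧
    0 < b ∧ b ^ 2 ∣ n ∧ t ≤ b ^ 3 := by
  induction n using Nat.recOnPosPrimePosCoprime with
  | prime_pow p k hp hk =>
    rcases Nat.lt_or_ge k 2 with h | h
    · obtain rfl : k = 1 := by omega
      exact ⟨p, 1, 1, by simp, hp.prime.squarefree, by simp, one_pos, by simp, by simp⟩
    · refine ⟨1, p ^ k, p ^ (k / 2), by simp, squarefree_one, by simp, pow_pos hp.pos _, ?_, ?_⟩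
      · rw [← pow_mul]; exact pow_dvd_pow _ (by omega)
      · rw [← pow_mul]; exact Nat.pow_le_pow_right hp.pos (by omega)
  | zero => omega
  | one => exact ⟨1, 1, 1, by simp, squarefree_one, by simp, one_pos, by simp, by simp⟩
  | coprime a b ha hb hab iha ihb =>
    obtain ⟨s, t, u, h1, h2, h3, h4, h5, h6⟩ := iha (by omega)
    obtain ⟨s', t', u', h1', h2', h3', h4', h5', h6'⟩ := ihb (by omega)
    have hsa : s ∣ a := ⟨t, h1⟩
    have hta : t ∣ a := ⟨s, by rw [h1, mul_comm]⟩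
    have hsb : s' ∣ b := ⟨t', h1'⟩
    have htb : t' ∣ b := ⟨s', by rw [h1', mul_comm]⟩
    have c1 : Nat.Coprime s s' := Nat.Coprime.of_dvd hsa hsb hab
    have c2 : Nat.Coprime s t' := Nat.Coprime.of_dvd hsa htb hab
    have c3 : Nat.Coprime s' t := (Nat.Coprime.of_dvd hta hsb hab).symm
    refine ⟨s * s', t * t', u * u', ?_, ?_, ?_, Nat.mul_pos h4 h4', ?_, ?_⟩
    · rw [h1, h1']; ring
    · exact (Nat.squarefree_mul c1).2 ⟨h2, h2'⟩
    · exact Nat.Coprime.mul_left (Nat.Coprime.mul_right h3 c2) (Nat.Coprime.mul_right c3 h3')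
    · rw [mul_pow]; exact Nat.mul_dvd_mul h5 h5'
    · rw [mul_pow]; exact Nat.mul_le_mul h6 h6'

open Classical in
/-- numbers divisible by the square of a large number are rare -/
lemma bad_count (x B : ℕ) (hB : 1 ≤ B) :
    (((Ico 1 x).filter fun n ↦ ∃ b, B < b ∧ b ^ 2 ∣ n).card : ℝ) ≤ x / B := by
  rcases Nat.lt_or_ge x B with hx | hx
  · have : (Ico 1 x).filter (fun n ↦ ∃ b, B < b ∧ b ^ 2 ∣ n) = ∅ := by
      ext n
      simp only [mem_filter, mem_Ico, notMem_empty, iff_false]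
      rintro ⟨⟨h1, h2⟩, b, h3, h4⟩
      have := Nat.le_of_dvd (by omega) h4
      nlinarith
    rw [this]
    simp
    positivity
  · have hsub : (Ico 1 x).filter (fun n ↦ ∃ b, B < b ∧ b ^ 2 ∣ n) ⊆
        (Ioc B x).biUnion fun b ↦ (Ioc 0 x).filter fun n ↦ b ^ 2 ∣ n := by
      intro n
      simp only [mem_filter, mem_Ico, mem_biUnion, mem_Ioc]
      rintro ⟨⟨h1, h2⟩, b, h3, h4⟩
      have := Nat.le_of_dvd (by omega) h4
      exact ⟨b, ⟨h3, by nlinarith⟩, ⟨by omega, by omega⟩, h4⟩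
    have h1 : ((Ico 1 x).filter fun n ↦ ∃ b, B < b ∧ b ^ 2 ∣ n).card ≤
        ∑ b ∈ Ioc B x, x / b ^ 2 := by
      refine (card_le_card hsub).trans (card_biUnion_le.trans (Finset.sum_le_sum fun b _ ↦ ?_))
      rw [Nat.Ioc_filter_dvd_card_eq_div]
    have h2 : (((∑ b ∈ Ioc B x, x / b ^ 2 : ℕ)) : ℝ) ≤ x * ∑ b ∈ Ioc B x, ((b : ℝ) ^ 2)⁻¹ := by
      rw [Nat.cast_sum, Finset.mul_sum]
      refine Finset.sum_le_sum fun b _ ↦ ?_
      have := Nat.cast_div_le (α := ℝ) (m := x) (n := b ^ 2)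
      rw [← div_eq_mul_inv]
      simpa using this
    have h3 : (∑ b ∈ Ioc B x, ((b : ℝ) ^ 2)⁻¹) ≤ (B : ℝ)⁻¹ := by
      refine (sum_Ioc_inv_sq_le_sub (by omega) hx).trans ?_
      have : (0 : ℝ) ≤ (x : ℝ)⁻¹ := by positivity
      linarith
    calc (((Ico 1 x).filter fun n ↦ ∃ b, B < b ∧ b ^ 2 ∣ n).card : ℝ)
        ≤ ((∑ b ∈ Ioc B x, x / b ^ 2 : ℕ) : ℝ) := by exact_mod_cast h1
      _ ≤ x * ∑ b ∈ Ioc B x, ((b : ℝ) ^ 2)⁻¹ := h2
      _ ≤ x * (B : ℝ)⁻¹ := mul_le_mul_of_nonneg_left h3 (by positivity)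
      _ = x / B := by rw [div_eq_mul_inv]

/-! ## Cauchy-Schwarz -/

lemma cs (S : Finset ℕ) (f g : ℕ → ℕ) :
    2 * ((S ×ˢ S).filter fun p ↦ f p.1 = g p.2).card ≤
      ((S ×ˢ S).filter fun p ↦ f p.1 = f p.2).card +
      ((S ×ˢ S).filter fun p ↦ g p.1 = g p.2).card := by
  classical
  have key : ∀ (u v : ℕ → ℕ) (K : Finset ℕ), (∀ s ∈ S, u s ∈ K) →
      ((S ×ˢ S).filter fun p ↦ u p.1 = v p.2).card =
      ∑ k ∈ K, (S.filter fun s ↦ u s = k).card * (S.filter fun s ↦ v s = k).card := by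
    intro u v K hK
    rw [Finset.card_eq_sum_card_fiberwise (f := fun p : ℕ × ℕ ↦ u p.1) (t := K)]
    · refine Finset.sum_congr rfl fun k _ ↦ ?_
      rw [← Finset.card_product]
      congr 1
      ext ⟨a, b⟩
      simp only [mem_filter, mem_product]
      constructor
      · rintro ⟨⟨⟨h1, h2⟩, h3⟩, h4⟩
        exact ⟨⟨h1, h4⟩, h2, by rw [← h3, h4]⟩
      · rintro ⟨⟨h1, h2⟩, h3, h4⟩
        exact ⟨⟨⟨h1, h3⟩, by rw [h2, h4]⟩, h2⟩
    · intro p hp
      simp only [coe_filter, mem_product, Set.mem_ofPred_eq] at hp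
      exact hK _ hp.1.1
  set K := S.image f ∪ S.image g with hK
  have hf : ∀ s ∈ S, f s ∈ K := fun s hs ↦ mem_union_left _ (mem_image_of_mem _ hs)
  have hg : ∀ s ∈ S, g s ∈ K := fun s hs ↦ mem_union_right _ (mem_image_of_mem _ hs)
  rw [key f g K hf, key f f K hf, key g g K hg, ← Finset.sum_add_distrib, Finset.mul_sum]
  refine Finset.sum_le_sum fun k _ ↦ ?_
  have : ∀ a b : ℕ, 2 * (a * b) ≤ a * a + b * b := by
    intro a b
    have := two_mul_le_add_sq (a : ℤ) (b : ℤ)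
    zify
    nlinarith
  exact this _ _

/-- the squarefree numbers below `x` -/
def Sq (x : ℕ) : Finset ℕ := (Ico 1 x).filter Squarefree

/-- the ordered pairs of squarefree numbers below `x` with equal sum of divisors -/
def EE (x : ℕ) : ℕ := ((Sq x ×ˢ Sq x).filter fun p ↦ σ 1 p.1 = σ 1 p.2).card

lemma Sq_card (x : ℕ) : (Sq x).card ≤ x := by
  refine (card_filter_le _ _).trans ?_
  simp

lemma EE_eq (x : ℕ) : EE x = 2 * hSquarefree x + (Sq x).card := by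
  classical
  have h1 : (Sq x ×ˢ Sq x).filter (fun p ↦ σ 1 p.1 = σ 1 p.2) =
      (((Ico 1 x ×ˢ Ico 1 x).filter fun (a, b) ↦
        a < b ∧ Squarefree a ∧ Squarefree b ∧ σ 1 a = σ 1 b) ∪
      ((Ico 1 x ×ˢ Ico 1 x).filter fun (a, b) ↦
        a < b ∧ Squarefree a ∧ Squarefree b ∧ σ 1 a = σ 1 b).image Prod.swap) ∪
      (Sq x).image fun a ↦ (a, a) := by
    ext ⟨a, b⟩
    simp only [Sq, mem_filter, mem_product, mem_union, mem_image, Prod.mk.injEq, Prod.exists,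
      Prod.swap_prod_mk, mem_Ico]
    constructor
    · rintro ⟨⟨⟨h1, h2⟩, h3, h4⟩, h5⟩
      rcases lt_trichotomy a b with h | h | h
      · exact Or.inl (Or.inl ⟨⟨h1, h3⟩, h, h2, h4, h5⟩)
      · exact Or.inr ⟨a, ⟨h1, h2⟩, rfl, h⟩
      · exact Or.inl (Or.inr ⟨b, a, ⟨⟨h3, h1⟩, h, h4, h2, h5.symm⟩, rfl, rfl⟩)
    · rintro ((⟨⟨h1, h3⟩, h, h2, h4, h5⟩ | ⟨b', a', ⟨⟨h3, h1⟩, h, h4, h2, h5⟩, h6, h7⟩) |
        ⟨c, ⟨h1, h2⟩, h3, h4⟩)
      · exact ⟨⟨⟨h1, h2⟩, h3, h4⟩, h5⟩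
      · subst h6; subst h7
        exact ⟨⟨⟨h1, h2⟩, h3, h4⟩, h5.symm⟩
      · subst h3; subst h4
        exact ⟨⟨⟨h1, h2⟩, h1, h2⟩, rfl⟩
  have d1 : Disjoint (((Ico 1 x ×ˢ Ico 1 x).filter fun (a, b) ↦
        a < b ∧ Squarefree a ∧ Squarefree b ∧ σ 1 a = σ 1 b))
      (((Ico 1 x ×ˢ Ico 1 x).filter fun (a, b) ↦
        a < b ∧ Squarefree a ∧ Squarefree b ∧ σ 1 a = σ 1 b).image Prod.swap) := by
    rw [Finset.disjoint_left]
    rintro ⟨a, b⟩ h1 h2
    simp only [mem_filter, mem_image, Prod.exists, Prod.swap_prod_mk, Prod.mk.injEq] at h1 h2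
    obtain ⟨c, d, ⟨_, h3, _⟩, h4, h5⟩ := h2
    omega
  have d2 : Disjoint (((Ico 1 x ×ˢ Ico 1 x).filter fun (a, b) ↦
        a < b ∧ Squarefree a ∧ Squarefree b ∧ σ 1 a = σ 1 b) ∪
      ((Ico 1 x ×ˢ Ico 1 x).filter fun (a, b) ↦
        a < b ∧ Squarefree a ∧ Squarefree b ∧ σ 1 a = σ 1 b).image Prod.swap)
      ((Sq x).image fun a ↦ (a, a)) := by
    rw [Finset.disjoint_left]
    rintro ⟨a, b⟩ h1 h2
    simp only [mem_union, mem_filter, mem_image, Prod.exists, Prod.swap_prod_mk,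
      Prod.mk.injEq] at h1 h2
    obtain ⟨c, _, h4, h5⟩ := h2
    rcases h1 with ⟨_, h, _⟩ | ⟨c', d', ⟨_, h, _⟩, h6, h7⟩ <;> omega
  rw [EE, h1, card_union_of_disjoint d2, card_union_of_disjoint d1,
    card_image_of_injective _ Prod.swap_injective,
    card_image_of_injective _ (fun a b h ↦ (Prod.mk.inj h).1), hSquarefree]
  ring

/-! ## All pairs against squarefree pairs -/

lemma scaled (x c c' : ℕ) (hc : 0 < c) (hc' : 0 < c') :
    ((Sq x ×ˢ Sq x).filter fun p ↦ σ 1 p.1 * c = σ 1 p.2 * c').card ≤ EE x := by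
  have h := cs (Sq x) (fun a ↦ σ 1 a * c) (fun a ↦ σ 1 a * c')
  have h1 : ((Sq x ×ˢ Sq x).filter fun p ↦ σ 1 p.1 * c = σ 1 p.2 * c).card = EE x := by
    rw [EE]
    congr 1
    ext p
    simp only [mem_filter, and_congr_right_iff]
    intro _
    exact ⟨fun h ↦ Nat.eq_of_mul_eq_mul_right hc h, fun h ↦ by rw [h]⟩
  have h2 : ((Sq x ×ˢ Sq x).filter fun p ↦ σ 1 p.1 * c' = σ 1 p.2 * c').card = EE x := by
    rw [EE]
    congr 1
    ext p
    simp only [mem_filter, and_congr_right_iff]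
    intro _
    exact ⟨fun h ↦ Nat.eq_of_mul_eq_mul_right hc' h, fun h ↦ by rw [h]⟩
  omega

lemma sigma_pos' {t : ℕ} (ht : 0 < t) : 0 < σ 1 t := by
  rw [ArithmeticFunction.sigma_one_apply]
  exact Finset.sum_pos (fun d hd ↦ Nat.pos_of_mem_divisors hd) ⟨1, Nat.one_mem_divisors.2 (by omega)⟩

/-- **All pairs against squarefree pairs.** -/
theorem all_le (x B : ℕ) (hB : 1 ≤ B) :
    (hAll x : ℝ) ≤ 2 * (x : ℝ) ^ 2 / B + (B : ℝ) ^ 6 * (2 * hSquarefree x + x) := by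
  classical
  set Bad := (Ico 1 x).filter fun n ↦ ∃ b, B < b ∧ b ^ 2 ∣ n with hBad
  have hbad : (Bad.card : ℝ) ≤ x / B := bad_count x B hB
  have hd : ∀ n : ℕ, ∃ q : ℕ × ℕ, 0 < n → n = q.1 * q.2 ∧ Squarefree q.1 ∧ Nat.Coprime q.1 q.2 ∧
      ∃ b, 0 < b ∧ b ^ 2 ∣ n ∧ q.2 ≤ b ^ 3 := by
    intro n
    rcases Nat.eq_zero_or_pos n with h | h
    · exact ⟨(0, 0), fun h' ↦ by omega⟩
    · obtain ⟨s, t, b, h1, h2, h3, h4⟩ := decomp n h
      exact ⟨(s, t), fun _ ↦ ⟨h1, h2, h3, b, h4⟩⟩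
  choose q hq using hd
  set T := Icc 1 (B ^ 3) with hT
  set G := ((Ico 1 x ×ˢ Ico 1 x).filter fun p ↦ σ 1 p.1 = σ 1 p.2 ∧ p.1 ∉ Bad ∧ p.2 ∉ Bad)
    with hG
  have hcover : ((Finset.Ico 1 x ×ˢ Finset.Ico 1 x).filter fun (a, b) ↦ a < b ∧ σ 1 a = σ 1 b) ⊆
      (Bad ×ˢ Ico 1 x ∪ Ico 1 x ×ˢ Bad) ∪ G := by
    rintro ⟨a, b⟩ h
    simp only [mem_filter, mem_product] at h
    simp only [mem_union, mem_product, hG, mem_filter]
    by_cases ha : a ∈ Bad
    · exact Or.inl (Or.inl ⟨ha, h.1.2⟩)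
    · by_cases hb : b ∈ Bad
      · exact Or.inl (Or.inr ⟨h.1.1, hb⟩)
      · exact Or.inr ⟨h.1, h.2.2, ha, hb⟩
  have hGcard : G.card ≤ (B ^ 3) ^ 2 * EE x := by
    set W : Finset ((_ : ℕ × ℕ) × (ℕ × ℕ)) := (T ×ˢ T).sigma (fun t ↦ (Sq x ×ˢ Sq x).filter
          fun p ↦ σ 1 p.1 * σ 1 t.1 = σ 1 p.2 * σ 1 t.2) with hW
    have hinj : Set.InjOn (fun p : ℕ × ℕ ↦
        (⟨((q p.1).2, (q p.2).2), ((q p.1).1, (q p.2).1)⟩ : (_ : ℕ × ℕ) × (ℕ × ℕ)))
        (G : Set (ℕ × ℕ)) := by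
      rintro ⟨a, b⟩ h ⟨a', b'⟩ h' he
      simp only [hG, coe_filter, mem_product, Set.mem_ofPred_eq, mem_Ico] at h h'
      simp only [Sigma.mk.injEq, Prod.mk.injEq, heq_eq_eq] at he
      have e1 := (hq a (by omega)).1
      have e2 := (hq b (by omega)).1
      have e3 := (hq a' (by omega)).1
      have e4 := (hq b' (by omega)).1
      rw [Prod.mk.injEq]
      constructor
      · rw [e1, e3, he.1.1, he.2.1]
      · rw [e2, e4, he.1.2, he.2.2]
    have hmaps : ∀ p ∈ G, (fun p : ℕ × ℕ ↦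
        (⟨((q p.1).2, (q p.2).2), ((q p.1).1, (q p.2).1)⟩ : (_ : ℕ × ℕ) × (ℕ × ℕ))) p ∈ W := by
      rintro ⟨a, b⟩ h
      simp only [hG, mem_filter, mem_product, mem_Ico] at h
      obtain ⟨⟨⟨ha1, ha2⟩, hb1, hb2⟩, hs, hna, hnb⟩ := h
      obtain ⟨e1, e2, e3, u, e4, e5, e6⟩ := hq a (by omega)
      obtain ⟨f1, f2, f3, v, f4, f5, f6⟩ := hq b (by omega)
      have hu : u ≤ B := by
        by_contra hu
        exact hna (by rw [hBad]; simp only [mem_filter, mem_Ico]; exact ⟨⟨ha1, ha2⟩, u, by omega, e5⟩)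
      have hv : v ≤ B := by
        by_contra hv
        exact hnb (by rw [hBad]; simp only [mem_filter, mem_Ico]; exact ⟨⟨hb1, hb2⟩, v, by omega, f5⟩)
      have ht1 : 0 < (q a).2 := Nat.pos_of_ne_zero fun h ↦ by rw [h] at e1; omega
      have ht2 : 0 < (q b).2 := Nat.pos_of_ne_zero fun h ↦ by rw [h] at f1; omega
      have hs1 : 0 < (q a).1 := Nat.pos_of_ne_zero fun h ↦ by rw [h] at e1; omega
      have hs2 : 0 < (q b).1 := Nat.pos_of_ne_zero fun h ↦ by rw [h] at f1; omega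
      have hsa : (q a).1 ≤ a := Nat.le_of_dvd (by omega) ⟨_, e1⟩
      have hsb : (q b).1 ≤ b := Nat.le_of_dvd (by omega) ⟨_, f1⟩
      simp only [hW, mem_sigma, mem_product, mem_filter, hT, mem_Icc, Sq, mem_Ico]
      refine ⟨⟨⟨ht1, ?_⟩, ht2, ?_⟩, ⟨⟨⟨hs1, by omega⟩, e2⟩,
        ⟨hs2, by omega⟩, f2⟩, ?_⟩
      · exact e6.trans (Nat.pow_le_pow_left hu 3)
      · exact f6.trans (Nat.pow_le_pow_left hv 3)
      · have m1 := ArithmeticFunction.isMultiplicative_sigma (k := 1) |>.map_mul_of_coprime e3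
        have m2 := ArithmeticFunction.isMultiplicative_sigma (k := 1) |>.map_mul_of_coprime f3
        rw [← e1] at m1
        rw [← f1] at m2
        rw [← m1, ← m2]
        exact hs
    calc G.card ≤ W.card := Finset.card_le_card_of_injOn _ hmaps hinj
      _ = ∑ t ∈ T ×ˢ T, ((Sq x ×ˢ Sq x).filter
          fun p ↦ σ 1 p.1 * σ 1 t.1 = σ 1 p.2 * σ 1 t.2).card := card_sigma _ _
      _ ≤ ∑ t ∈ T ×ˢ T, EE x := by
          refine Finset.sum_le_sum fun t ht ↦ ?_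
          simp only [hT, mem_product, mem_Icc] at ht
          exact scaled x _ _ (sigma_pos' (by omega)) (sigma_pos' (by omega))
      _ = (B ^ 3) ^ 2 * EE x := by
          rw [Finset.sum_const, card_product, hT, Nat.card_Icc, smul_eq_mul]
          simp only [Nat.add_sub_cancel]
          ring
  have h1 : hAll x ≤ 2 * (Bad.card * x) + (B ^ 3) ^ 2 * EE x := by
    have := card_le_card hcover
    have h2 := (card_union_le (Bad ×ˢ Ico 1 x ∪ Ico 1 x ×ˢ Bad) G).trans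
      (Nat.add_le_add_right (card_union_le _ _) _)
    rw [card_product, card_product, Nat.card_Ico] at h2
    have h3 : Bad.card * (x - 1) ≤ Bad.card * x := Nat.mul_le_mul_left _ (by omega)
    have h4 : (x - 1) * Bad.card ≤ Bad.card * x := by
      rw [mul_comm]; exact h3
    unfold hAll
    omega
  have h2 : (EE x : ℝ) ≤ 2 * hSquarefree x + x := by
    rw [EE_eq]
    push_cast
    have : ((Sq x).card : ℝ) ≤ x := by exact_mod_cast Sq_card x
    linarith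
  have h3 : (hAll x : ℝ) ≤ 2 * (Bad.card * x) + ((B : ℝ) ^ 3) ^ 2 * EE x := by exact_mod_cast h1
  have h4 : (Bad.card : ℝ) * x ≤ x / B * x := mul_le_mul_of_nonneg_right hbad (by positivity)
  have h5 : ((B : ℝ) ^ 3) ^ 2 * EE x ≤ (B : ℝ) ^ 6 * (2 * hSquarefree x + x) := by
    rw [← pow_mul]
    exact mul_le_mul_of_nonneg_left h2 (by positivity)
  calc (hAll x : ℝ) ≤ 2 * (Bad.card * x) + ((B : ℝ) ^ 3) ^ 2 * EE x := h3
    _ ≤ 2 * (x / B * x) + (B : ℝ) ^ 6 * (2 * hSquarefree x + x) := by linarith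
    _ = 2 * (x : ℝ) ^ 2 / B + (B : ℝ) ^ 6 * (2 * hSquarefree x + x) := by ring

/-! ## Squarefree pairs against coprime squarefree pairs -/

/-- **Squarefree pairs against coprime squarefree pairs.** -/
theorem sq_le (x B : ℕ) (hB : 1 ≤ B) :
    (hSquarefree x : ℝ) ≤ (x : ℝ) ^ 2 / B + B * hBoth x := by
  classical
  set P := ((Finset.Ico 1 x ×ˢ Finset.Ico 1 x).filter fun (a, b) ↦
    a < b ∧ Squarefree a ∧ Squarefree b ∧ σ 1 a = σ 1 b) with hP
  set Q := ((Finset.Ico 1 x ×ˢ Finset.Ico 1 x).filter fun (a, b) ↦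
    a < b ∧ Nat.Coprime a b ∧ Squarefree a ∧ Squarefree b ∧ σ 1 a = σ 1 b) with hQ
  set P1 := P.filter fun p ↦ Nat.gcd p.1 p.2 ≤ B with hP1
  set P2 := P.filter fun p ↦ ¬ Nat.gcd p.1 p.2 ≤ B with hP2
  have hsplit : P.card = P1.card + P2.card := (card_filter_add_card_filter_not _).symm
  have h1 : P1.card ≤ B * Q.card := by
    have hinj : Set.InjOn (fun p : ℕ × ℕ ↦
        (Nat.gcd p.1 p.2, (p.1 / Nat.gcd p.1 p.2, p.2 / Nat.gcd p.1 p.2))) (P1 : Set (ℕ × ℕ)) := by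
      rintro ⟨a, b⟩ h ⟨a', b'⟩ h' he
      simp only [Prod.mk.injEq] at he
      obtain ⟨e1, e2, e3⟩ := he
      rw [Prod.mk.injEq]
      constructor
      · rw [← Nat.div_mul_cancel (Nat.gcd_dvd_left a b), ← Nat.div_mul_cancel (Nat.gcd_dvd_left a' b'),
          e2, e1]
      · rw [← Nat.div_mul_cancel (Nat.gcd_dvd_right a b),
          ← Nat.div_mul_cancel (Nat.gcd_dvd_right a' b'), e3, e1]
    have hmaps : ∀ p ∈ P1, (fun p : ℕ × ℕ ↦
        (Nat.gcd p.1 p.2, (p.1 / Nat.gcd p.1 p.2, p.2 / Nat.gcd p.1 p.2))) p ∈ Icc 1 B ×ˢ Q := by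
      rintro ⟨a, b⟩ h
      simp only [hP1, hP, mem_filter, mem_product, mem_Ico] at h
      obtain ⟨⟨⟨⟨ha1, ha2⟩, hb1, hb2⟩, hlt, hsa, hsb, hs⟩, hg⟩ := h
      have hg0 : 0 < Nat.gcd a b := Nat.gcd_pos_of_pos_left _ (by omega)
      set g := Nat.gcd a b with hgdef
      obtain ⟨a', ha'⟩ : g ∣ a := Nat.gcd_dvd_left a b
      obtain ⟨b', hb'⟩ : g ∣ b := Nat.gcd_dvd_right a b
      have ea : a / g = a' := by rw [ha']; exact Nat.mul_div_cancel_left _ hg0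
      have eb : b / g = b' := by rw [hb']; exact Nat.mul_div_cancel_left _ hg0
      have hcop : Nat.Coprime a' b' := by
        have := Nat.coprime_div_gcd_div_gcd (m := a) (n := b) hg0
        rw [← hgdef, ea, eb] at this
        exact this
      have ha0 : 0 < a' := Nat.pos_of_ne_zero fun h ↦ by rw [h] at ha'; omega
      have hb0 : 0 < b' := Nat.pos_of_ne_zero fun h ↦ by rw [h] at hb'; omega
      have hsa' := hsa
      have hsb' := hsb
      rw [ha'] at hsa'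
      rw [hb'] at hsb'
      have c1 : Nat.Coprime g a' := Nat.coprime_of_squarefree_mul hsa'
      have c2 : Nat.Coprime g b' := Nat.coprime_of_squarefree_mul hsb'
      have m1 := ArithmeticFunction.isMultiplicative_sigma (k := 1) |>.map_mul_of_coprime c1
      have m2 := ArithmeticFunction.isMultiplicative_sigma (k := 1) |>.map_mul_of_coprime c2
      have hsig : σ 1 a' = σ 1 b' := by
        rw [ha', hb', m1, m2] at hs
        exact Nat.eq_of_mul_eq_mul_left (sigma_pos' hg0) hs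
      have l1 : a' ≤ a := Nat.le_of_dvd (by omega) ⟨g, by rw [ha', mul_comm]⟩
      have l2 : b' ≤ b := Nat.le_of_dvd (by omega) ⟨g, by rw [hb', mul_comm]⟩
      have l3 : a' < b' := by
        rw [ha', hb'] at hlt
        exact lt_of_mul_lt_mul_left hlt (Nat.zero_le _)
      simp only [mem_product, mem_Icc, hQ, mem_filter, mem_Ico]
      rw [ea, eb]
      exact ⟨⟨hg0, hg⟩, ⟨⟨ha0, by omega⟩, hb0, by omega⟩, l3, hcop,
        ((Nat.squarefree_mul c1).1 hsa').2, ((Nat.squarefree_mul c2).1 hsb').2, hsig⟩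
    have := Finset.card_le_card_of_injOn _ hmaps hinj
    rw [card_product, Nat.card_Icc, Nat.add_sub_cancel] at this
    exact this
  have h2 : (P2.card : ℝ) ≤ (x : ℝ) ^ 2 / B := by
    rcases Nat.lt_or_ge x B with hx | hx
    · have : P2 = ∅ := by
        ext ⟨a, b⟩
        simp only [hP2, hP, mem_filter, mem_product, mem_Ico, notMem_empty, iff_false]
        rintro ⟨⟨⟨⟨ha1, ha2⟩, _⟩, _⟩, hg⟩
        have := Nat.le_of_dvd (by omega) (Nat.gcd_dvd_left a b)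
        omega
      rw [this]
      simp
      positivity
    · have hsub : P2 ⊆ (Ioc B x).biUnion fun g ↦
          ((Ioc 0 x).filter fun n ↦ g ∣ n) ×ˢ ((Ioc 0 x).filter fun n ↦ g ∣ n) := by
        rintro ⟨a, b⟩ h
        simp only [hP2, hP, mem_filter, mem_product, mem_Ico] at h
        obtain ⟨⟨⟨⟨ha1, ha2⟩, hb1, hb2⟩, _⟩, hg⟩ := h
        have := Nat.le_of_dvd (by omega) (Nat.gcd_dvd_left a b)
        simp only [mem_biUnion, mem_product, mem_filter, mem_Ioc]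
        exact ⟨Nat.gcd a b, ⟨by omega, by omega⟩, ⟨⟨by omega, by omega⟩, Nat.gcd_dvd_left a b⟩,
          ⟨by omega, by omega⟩, Nat.gcd_dvd_right a b⟩
      have h3 : P2.card ≤ ∑ g ∈ Ioc B x, (x / g) * (x / g) := by
        refine (card_le_card hsub).trans (card_biUnion_le.trans (Finset.sum_le_sum fun b _ ↦ ?_))
        rw [card_product, Nat.Ioc_filter_dvd_card_eq_div]
      have h4 : (((∑ g ∈ Ioc B x, (x / g) * (x / g) : ℕ)) : ℝ) ≤
          (x : ℝ) ^ 2 * ∑ g ∈ Ioc B x, ((g : ℝ) ^ 2)⁻¹ := by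
        rw [Nat.cast_sum, Finset.mul_sum]
        refine Finset.sum_le_sum fun b _ ↦ ?_
        have h := Nat.cast_div_le (α := ℝ) (m := x) (n := b)
        push_cast
        calc ((x / b : ℕ) : ℝ) * ((x / b : ℕ) : ℝ) ≤ ((x : ℝ) / b) * ((x : ℝ) / b) :=
              mul_le_mul h h (by positivity) (by positivity)
          _ = (x : ℝ) ^ 2 * ((b : ℝ) ^ 2)⁻¹ := by ring
      have h5 : (∑ b ∈ Ioc B x, ((b : ℝ) ^ 2)⁻¹) ≤ (B : ℝ)⁻¹ := by
        refine (sum_Ioc_inv_sq_le_sub (by omega) hx).trans ?_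
        have : (0 : ℝ) ≤ (x : ℝ)⁻¹ := by positivity
        linarith
      calc (P2.card : ℝ) ≤ ((∑ g ∈ Ioc B x, (x / g) * (x / g) : ℕ) : ℝ) := by exact_mod_cast h3
        _ ≤ (x : ℝ) ^ 2 * ∑ g ∈ Ioc B x, ((g : ℝ) ^ 2)⁻¹ := h4
        _ ≤ (x : ℝ) ^ 2 * (B : ℝ)⁻¹ := mul_le_mul_of_nonneg_left h5 (by positivity)
        _ = (x : ℝ) ^ 2 / B := by rw [div_eq_mul_inv]
  have h3 : (P1.card : ℝ) ≤ B * hBoth x := by
    have : P1.card ≤ B * hBoth x := h1
    exact_mod_cast this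
  have h4 : (hSquarefree x : ℝ) = P1.card + P2.card := by
    have : hSquarefree x = P1.card + P2.card := hsplit
    exact_mod_cast this
  rw [h4]
  linarith

end Pool.Agent.Q5.SQ
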