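import Mathlib
import Pool.Agent.Q5.SQ.Main

/-!
# Pairs with equal sum of divisors: the asymptotic equivalences
-/

set_option autoImplicit false

namespace Pool.Agent.Q5.SQ

open Finset Filter
open scoped ArithmeticFunction.sigma
open Nb4cc4d7a

lemma Full.mono {F G : ℕ → ℕ} (h : ∀ x, F x ≤ G x) (hF : Full F) : Full G := by
  intro ε hε
  filter_upwards [hF ε hε] with x hx
  exact hx.trans_le (by exact_mod_cast h x)

lemma large (δ C : ℝ) (hδ : 0 < δ) : ∀ᶠ x : ℕ in atTop, C ≤ (x : ℝ) ^ δ :=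
  ((tendsto_rpow_atTop hδ).comp tendsto_natCast_atTop_atTop).eventually_ge_atTop C

lemma asym {F G : ℕ → ℕ} (h : ∀ x B : ℕ, 1 ≤ B →
    (F x : ℝ) ≤ 2 * (x : ℝ) ^ 2 / B + (B : ℝ) ^ 6 * (2 * G x + x)) (hF : Full F) : Full G := by
  intro ε hε
  set δ : ℝ := min (ε / 16) (1 / 16) with hδ
  have hδ0 : 0 < δ := lt_min (by positivity) (by norm_num)
  have hδ1 : 16 * δ ≤ ε := by
    have := min_le_left (ε / 16) (1 / 16 : ℝ)
    rw [← hδ] at this
    linarith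
  have hδ2 : 16 * δ ≤ 1 := by
    have := min_le_right (ε / 16) (1 / 16 : ℝ)
    rw [← hδ] at this
    linarith
  filter_upwards [hF δ hδ0, large δ 93750 hδ0, eventually_ge_atTop 1] with x h1 h2 h3
  by_contra hcon
  rw [not_lt] at hcon
  have hX : (1 : ℝ) ≤ x := by exact_mod_cast h3
  have hX0 : (0 : ℝ) < x := by linarith
  set X : ℝ := (x : ℝ) with hXdef
  have hXd : (1 : ℝ) ≤ X ^ δ := Real.one_le_rpow hX hδ0.le
  set B := ⌈4 * X ^ δ⌉₊ with hB
  have hB1 : 4 * X ^ δ ≤ B := Nat.le_ceil _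
  have hB2 : (B : ℝ) ≤ 5 * X ^ δ := by
    have := Nat.ceil_lt_add_one (a := 4 * X ^ δ) (by positivity)
    rw [← hB] at this
    linarith
  have hB3 : 1 ≤ B := by
    have : (1 : ℝ) ≤ B := by linarith
    exact_mod_cast this
  have e0 := h x B hB3
  rw [← hXdef] at e0
  have e1 : 2 * X ^ 2 / B ≤ X ^ (2 - δ) / 2 := by
    have hb : (0 : ℝ) < B := by linarith
    rw [div_le_iff₀ hb, Real.rpow_sub hX0, Real.rpow_two]
    have : X ^ 2 / X ^ δ / 2 * (4 * X ^ δ) ≤ X ^ 2 / X ^ δ / 2 * B :=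
      mul_le_mul_of_nonneg_left hB1 (by positivity)
    have e : X ^ 2 / X ^ δ / 2 * (4 * X ^ δ) = 2 * X ^ 2 := by
      field_simp
      ring
    linarith
  have e2 : (B : ℝ) ^ 6 ≤ 15625 * X ^ (6 * δ) := by
    have : (B : ℝ) ^ 6 ≤ (5 * X ^ δ) ^ 6 := pow_le_pow_left₀ (by positivity) hB2 6
    rw [mul_pow, ← Real.rpow_natCast (X ^ δ), ← Real.rpow_mul hX0.le] at this
    have e : (δ * ((6 : ℕ) : ℝ)) = 6 * δ := by push_cast; ring
    rw [e] at this
    linarith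
  have hG : (G x : ℝ) ≤ X ^ (2 - 8 * δ) :=
    hcon.trans (Real.rpow_le_rpow_of_exponent_le hX (by linarith))
  have hX' : X ≤ X ^ (2 - 8 * δ) := by
    calc X = X ^ (1 : ℝ) := (Real.rpow_one X).symm
      _ ≤ X ^ (2 - 8 * δ) := Real.rpow_le_rpow_of_exponent_le hX (by linarith)
  have e3 : (B : ℝ) ^ 6 * (2 * G x + X) ≤ 46875 * X ^ (2 - 2 * δ) := by
    calc (B : ℝ) ^ 6 * (2 * G x + X) ≤ (15625 * X ^ (6 * δ)) * (3 * X ^ (2 - 8 * δ)) :=
          mul_le_mul e2 (by linarith) (by positivity) (by positivity)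
      _ = 46875 * (X ^ (6 * δ) * X ^ (2 - 8 * δ)) := by ring
      _ = 46875 * X ^ (2 - 2 * δ) := by
          rw [← Real.rpow_add hX0]
          congr 2
          ring
  have e4 : X ^ (2 - δ) / 2 < 46875 * X ^ (2 - 2 * δ) := by linarith
  have e5 : X ^ (2 - δ) = X ^ δ * X ^ (2 - 2 * δ) := by
    rw [← Real.rpow_add hX0]
    congr 1
    ring
  have e6 : 0 < X ^ (2 - 2 * δ) := Real.rpow_pos_of_pos hX0 _
  rw [e5] at e4
  nlinarith

lemma EE_sum (x : ℕ) : EE x = ∑ s ∈ Sq x, pop x (σ 1 s) := by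
  classical
  rw [EE, Finset.card_eq_sum_card_fiberwise (f := fun p : ℕ × ℕ ↦ p.1) (t := Sq x)]
  · refine Finset.sum_congr rfl fun s hs ↦ ?_
    rw [pop]
    refine Finset.card_bij (fun p _ ↦ p.2) ?_ ?_ ?_
    · rintro ⟨a, b⟩ h
      simp only [mem_filter, mem_product, Sq] at h ⊢
      obtain ⟨⟨⟨_, h1, h2⟩, h3⟩, h4⟩ := h
      exact ⟨h1, h2, by rw [← h4, h3]⟩
    · rintro ⟨a, b⟩ h ⟨a', b'⟩ h' he
      simp only [mem_filter] at h h' he
      rw [Prod.mk.injEq]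
      exact ⟨by rw [h.2, h'.2], he⟩
    · intro b hb
      simp only [mem_filter] at hb
      refine ⟨(s, b), ?_, rfl⟩
      simp only [mem_filter, mem_product, Sq] at hs ⊢
      exact ⟨⟨⟨hs, hb.1, hb.2.1⟩, hb.2.2.symm⟩, trivial⟩
  · intro p hp
    simp only [coe_filter, mem_product, Set.mem_ofPred_eq] at hp
    exact hp.1.1

lemma sq_le_EE (x m : ℕ) : pop x m * pop x m ≤ EE x := by
  classical
  rw [pop, ← card_product, EE]
  refine card_le_card ?_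
  rintro ⟨a, b⟩ h
  simp only [mem_filter, mem_product, Sq] at h ⊢
  exact ⟨⟨⟨h.1.1, h.1.2.1⟩, h.2.1, h.2.2.1⟩, by rw [h.1.2.2, h.2.2.2]⟩

theorem popular_of_full (h : Full hSquarefree) : Popular := by
  intro ε hε
  filter_upwards [h ε hε, eventually_ge_atTop 1] with x h1 h2
  by_contra hcon
  push Not at hcon
  have hX : (1 : ℝ) ≤ x := by exact_mod_cast h2
  have hX0 : (0 : ℝ) < x := by linarith
  have e1 : (EE x : ℝ) ≤ (Sq x).card * (x : ℝ) ^ (1 - ε) := by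
    rw [EE_sum]
    push_cast
    calc (∑ s ∈ Sq x, (pop x (σ 1 s) : ℝ)) ≤ ∑ _s ∈ Sq x, (x : ℝ) ^ (1 - ε) :=
          Finset.sum_le_sum fun s _ ↦ hcon _
      _ = (Sq x).card * (x : ℝ) ^ (1 - ε) := by rw [Finset.sum_const, nsmul_eq_mul]
  have e2 : ((Sq x).card : ℝ) * (x : ℝ) ^ (1 - ε) ≤ x * (x : ℝ) ^ (1 - ε) :=
    mul_le_mul_of_nonneg_right (by exact_mod_cast Sq_card x) (by positivity)
  have e3 : (x : ℝ) * (x : ℝ) ^ (1 - ε) = (x : ℝ) ^ (2 - ε) := by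
    nth_rewrite 1 [← Real.rpow_one (x : ℝ)]
    rw [← Real.rpow_add hX0]
    congr 1
    ring
  have e4 : (EE x : ℝ) = 2 * hSquarefree x + (Sq x).card := by
    rw [EE_eq]
    push_cast
    ring
  have e5 : (0 : ℝ) ≤ (Sq x).card := Nat.cast_nonneg _
  have e6 : (0 : ℝ) ≤ hSquarefree x := Nat.cast_nonneg _
  linarith

theorem full_of_popular (h : Popular) : Full hSquarefree := by
  intro ε hε
  set δ : ℝ := min (ε / 4) (1 / 4) with hδ
  have hδ0 : 0 < δ := lt_min (by positivity) (by norm_num)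
  have hδ1 : 4 * δ ≤ ε := by
    have := min_le_left (ε / 4) (1 / 4 : ℝ)
    rw [← hδ] at this
    linarith
  have hδ2 : 4 * δ ≤ 1 := by
    have := min_le_right (ε / 4) (1 / 4 : ℝ)
    rw [← hδ] at this
    linarith
  filter_upwards [h δ hδ0, large δ 3 hδ0, eventually_ge_atTop 1] with x h1 h2 h3
  by_contra hcon
  rw [not_lt] at hcon
  obtain ⟨m, hm⟩ := h1
  have hX : (1 : ℝ) ≤ x := by exact_mod_cast h3
  have hX0 : (0 : ℝ) < x := by linarith
  set X : ℝ := (x : ℝ) with hXdef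
  have e1 : ((pop x m : ℝ)) * pop x m ≤ EE x := by exact_mod_cast sq_le_EE x m
  have e2 : X ^ (2 - 2 * δ) < (pop x m : ℝ) * pop x m := by
    have e : X ^ (2 - 2 * δ) = X ^ (1 - δ) * X ^ (1 - δ) := by
      rw [← Real.rpow_add hX0]
      congr 1
      ring
    rw [e]
    have hp : (0 : ℝ) < X ^ (1 - δ) := Real.rpow_pos_of_pos hX0 _
    exact mul_lt_mul'' hm hm hp.le hp.le
  have e4 : (EE x : ℝ) ≤ 2 * hSquarefree x + X := by
    rw [EE_eq]
    push_cast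
    have : ((Sq x).card : ℝ) ≤ x := by exact_mod_cast Sq_card x
    linarith
  have hG : (hSquarefree x : ℝ) ≤ X ^ (2 - 3 * δ) :=
    hcon.trans (Real.rpow_le_rpow_of_exponent_le hX (by linarith))
  have hX' : X ≤ X ^ (2 - 3 * δ) := by
    calc X = X ^ (1 : ℝ) := (Real.rpow_one X).symm
      _ ≤ X ^ (2 - 3 * δ) := Real.rpow_le_rpow_of_exponent_le hX (by linarith)
  have e5 : X ^ (2 - 2 * δ) = X ^ δ * X ^ (2 - 3 * δ) := by
    rw [← Real.rpow_add hX0]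
    congr 1
    ring
  have e6 : 0 < X ^ (2 - 3 * δ) := Real.rpow_pos_of_pos hX0 _
  rw [e5] at e2
  nlinarith

lemma both_le_coprime (x : ℕ) : hBoth x ≤ hCoprime x := by
  refine card_le_card ?_
  rintro ⟨a, b⟩ h
  simp only [mem_filter] at h ⊢
  exact ⟨h.1, h.2.1, h.2.2.1, h.2.2.2.2.2⟩

lemma coprime_le_all (x : ℕ) : hCoprime x ≤ hAll x := by
  refine card_le_card ?_
  rintro ⟨a, b⟩ h
  simp only [mem_filter] at h ⊢
  exact ⟨h.1, h.2.1, h.2.2.2⟩

theorem main : List.TFAE [Full hSquarefree, Full hCoprime, Full hAll, Full hBoth, Popular] := by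
  tfae_have 1 → 4 := by
    refine asym fun x B hB ↦ (sq_le x B hB).trans ?_
    have hB' : (1 : ℝ) ≤ B := by exact_mod_cast hB
    have h1 : (B : ℝ) ≤ (B : ℝ) ^ 6 := le_self_pow₀ hB' (by norm_num)
    have h2 : (0 : ℝ) ≤ hBoth x := Nat.cast_nonneg _
    have h3 : (0 : ℝ) ≤ (x : ℝ) := Nat.cast_nonneg _
    have h4 : (B : ℝ) * hBoth x ≤ (B : ℝ) ^ 6 * hBoth x := mul_le_mul_of_nonneg_right h1 h2
    have h5 : (0 : ℝ) ≤ (x : ℝ) ^ 2 / B := by positivity
    have h6 : (0 : ℝ) ≤ (B : ℝ) ^ 6 * (hBoth x + x) := by positivity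
    have e : 2 * (x : ℝ) ^ 2 / B + (B : ℝ) ^ 6 * (2 * hBoth x + x) =
      ((x : ℝ) ^ 2 / B + (B : ℝ) ^ 6 * hBoth x) + (x : ℝ) ^ 2 / B +
        (B : ℝ) ^ 6 * (hBoth x + x) := by ring
    rw [e]
    linarith
  tfae_have 4 → 2 := Full.mono both_le_coprime
  tfae_have 2 → 3 := Full.mono coprime_le_all
  tfae_have 3 → 1 := asym all_le
  tfae_have 1 → 5 := popular_of_full
  tfae_have 5 → 1 := full_of_popular
  tfae_finish

end Pool.Agent.Q5.SQ
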